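import Pool.Agent.TFJ.Stmts

/-! # Squad TFJ, piece TRL: translation lengths are bounded below -/

set_option autoImplicit false

namespace Pool.Agent.TFJ.H39

open Pool.Agent.TFJ

theorem trl (hdsp : DspStmt) : TrlStmt := by
  classical
  intro G E _ _ _ hA
  obtain ⟨x₀, R, hR⟩ := hA.cobdd
  have hT : {h : G | dist x₀ (h • x₀) ≤ 2 * R + 1}.Finite := hA.proper x₀ (2 * R + 1)
  obtain ⟨M, hMdef⟩ : ∃ M : ℕ, M = hT.toFinset.card := ⟨_, rfl⟩
  have hM : (0 : ℝ) < (M : ℝ) + 1 := by positivity
  refine ⟨1 / ((M : ℝ) + 1), by positivity, ?_⟩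
  intro g hg x N
  by_contra hc
  have hc := not_le.1 hc
  have hN : 1 ≤ N := by
    rcases Nat.eq_zero_or_pos N with h | h
    · subst h
      exfalso
      have h0 : (1 / ((M : ℝ) + 1)) * ((0 : ℕ) : ℝ) = 0 := by simp
      rw [h0] at hc
      exact absurd hc (not_lt.2 dist_nonneg)
    · exact h
  have hN' : (0 : ℝ) < N := by exact_mod_cast hN
  have hd : dist x (g ^ N • x) / N < 1 / ((M : ℝ) + 1) := by
    rw [div_lt_iff₀ hN']; exact hc
  obtain ⟨y, hy⟩ := hdsp E hA.inj (MulAction.toPerm g) (fun a b => hA.isom g a b) x N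
    (1 / ((M : ℝ) + 1) - dist x (g ^ N • x) / N) hN (by linarith)
  have e1 : ∀ n : ℕ, ((MulAction.toPerm g : Equiv.Perm E) ^ n) x = g ^ n • x := by
    intro n
    induction n with
    | zero => simp
    | succ n ih =>
      rw [pow_succ', Equiv.Perm.mul_apply, ih, pow_succ', mul_smul]
      rfl
  rw [e1] at hy
  have hy' : dist y (g • y) ≤ 1 / ((M : ℝ) + 1) := by
    have h0 : (MulAction.toPerm g : Equiv.Perm E) y = g • y := rfl
    rw [h0] at hy
    linarith
  have hm : ∀ m : ℕ, dist y (g ^ m • y) ≤ m * (1 / ((M : ℝ) + 1)) := by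
    intro m
    induction m with
    | zero => simp
    | succ m ih =>
      have h1 : g ^ (m + 1) • y = g • (g ^ m • y) := by rw [pow_succ', mul_smul]
      have h2 := dist_triangle y (g • y) (g ^ (m + 1) • y)
      have h3 : dist (g • y) (g ^ (m + 1) • y) = dist y (g ^ m • y) := by
        rw [h1, hA.isom]
      push_cast
      linarith
  obtain ⟨h, hh⟩ := hR y
  have hin : ∀ m ∈ Finset.range (M + 1), h⁻¹ * g ^ m * h ∈ hT.toFinset := by
    intro m hmr
    rw [Set.Finite.mem_toFinset]
    show dist x₀ ((h⁻¹ * g ^ m * h) • x₀) ≤ 2 * R + 1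
    have h1 : dist x₀ ((h⁻¹ * g ^ m * h) • x₀) = dist (h • x₀) (g ^ m • (h • x₀)) := by
      rw [← hA.isom h x₀ ((h⁻¹ * g ^ m * h) • x₀), ← mul_smul, ← mul_smul]
      congr 2
      group
    have h2 : (m : ℝ) ≤ M := by
      have := Finset.mem_range.1 hmr
      exact_mod_cast Nat.lt_succ_iff.1 this
    have h3 : (m : ℝ) * (1 / ((M : ℝ) + 1)) ≤ 1 := by
      rw [mul_one_div, div_le_one hM]
      linarith
    have h4 := hm m
    have h5 := dist_triangle (h • x₀) y (g ^ m • (h • x₀))
    have h6 := dist_triangle y (g ^ m • y) (g ^ m • (h • x₀))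
    have h7 : dist (g ^ m • y) (g ^ m • (h • x₀)) = dist y (h • x₀) := hA.isom _ _ _
    have h8 : dist (h • x₀) y = dist y (h • x₀) := dist_comm _ _
    rw [h1]
    linarith
  have hinj : Set.InjOn (fun m : ℕ => h⁻¹ * g ^ m * h) (Finset.range (M + 1) : Finset ℕ) := by
    have key : ∀ a b : ℕ, a < b → h⁻¹ * g ^ a * h ≠ h⁻¹ * g ^ b * h := by
      intro a b hab he
      have h1 : g ^ a = g ^ b := mul_left_cancel (mul_right_cancel he)
      have h2 : g ^ b = g ^ a * g ^ (b - a) := by
        rw [← pow_add]; congr 1; omega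
      rw [h2] at h1
      have h3 : g ^ (b - a) = 1 := by
        have := h1.symm
        exact mul_left_cancel (a := g ^ a) (by rw [this, mul_one])
      exact hg (b - a) (by omega) h3
    intro a _ b _ hab
    rcases lt_trichotomy a b with h1 | h1 | h1
    · exact absurd hab (key a b h1)
    · exact h1
    · exact absurd hab.symm (key b a h1)
  have hcard := Finset.card_le_card_of_injOn (s := Finset.range (M + 1)) (t := hT.toFinset)
    (fun m : ℕ => h⁻¹ * g ^ m * h) hin hinj
  rw [Finset.card_range, ← hMdef] at hcard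
  omega

end Pool.Agent.TFJ.H39
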